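import Pool.Agent.Q230.PG.Main

/-!
# MP_9390ab_lc, Q2: generalized PCG recognition

Given a graph `G` and a set `S` of non-edges of `G`, it is NP-hard to decide whether there are an
edge-weighted tree `T`, whose leaves are the vertices of `G`, and `0 ≤ dmin ≤ dmax` such that
`PCG(T, dmin, dmax)` contains `G` as a subgraph and contains no pair of `S`.
-/

set_option autoImplicit false

namespace Pool.Agent.Results.MP_9390ab_lc.GeneralizedHard

open Pool.Agent.NPC Pool.Agent.Q230.PG

theorem result : NPHardP Problem := hard

end Pool.Agent.Results.MP_9390ab_lc.GeneralizedHard
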